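import Mathlib

set_option autoImplicit false

open Set Filter Topology Function

namespace Pool.Agent.Results.MP_41ff45_gt.HausdorffCounterexample

universe u

/-! ## The games -/

/-- A `k`-cover of `X`: a family of open subsets such that every compact subset of `X` lies inside
some member of the family. -/
def IsKCover (X : Type u) [TopologicalSpace X] (𝒰 : Set (Set X)) : Prop :=
  (∀ U ∈ 𝒰, IsOpen U) ∧ ∀ K : Set X, IsCompact K → ∃ U ∈ 𝒰, K ⊆ U

/-- `X` is Markov `k`-Menger: player P2 has a winning Markov strategy `σ` (a rule that depends only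
on the current move of P1 and on the number of the round) in the game `G_fin(K_X, K_X)`. -/
def MarkovKMenger (X : Type u) [TopologicalSpace X] : Prop :=
  ∃ σ : Set (Set X) → ℕ → Set (Set X),
    (∀ (𝒰 : Set (Set X)) (n : ℕ), IsKCover X 𝒰 → σ 𝒰 n ⊆ 𝒰 ∧ (σ 𝒰 n).Finite) ∧
    ∀ 𝒰 : ℕ → Set (Set X), (∀ n, IsKCover X (𝒰 n)) → IsKCover X (⋃ n, σ (𝒰 n) n)

/-- `X` is Markov `k`-Rothberger: player P2 has a winning Markov strategy `σ` in the game
`G_1(K_X, K_X)`. -/
def MarkovKRothberger (X : Type u) [TopologicalSpace X] : Prop :=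
  ∃ σ : Set (Set X) → ℕ → Set X,
    (∀ (𝒰 : Set (Set X)) (n : ℕ), IsKCover X 𝒰 → σ 𝒰 n ∈ 𝒰) ∧
    ∀ 𝒰 : ℕ → Set (Set X), (∀ n, IsKCover X (𝒰 n)) →
      IsKCover X (Set.range fun n => σ (𝒰 n) n)

/-! ## Independent family and the cardinality of `Ultrafilter ℕ` -/

/-- The countable set carrying the independent family. -/
abbrev S : Type := Finset ℕ × Finset (Finset ℕ)

open Classical in
/-- The independent family. -/
noncomputable def indep (X : Set ℕ) : Set S := {s | s.1.filter (· ∈ X) ∈ s.2}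

open Classical in
theorem exists_separating (T : Set (Set ℕ)) (hT : T.Finite) :
    ∃ F : Finset ℕ, ∀ X ∈ T, ∀ Y ∈ T, F.filter (· ∈ X) = F.filter (· ∈ Y) → X = Y := by
  have h1 : ∀ X Y : Set ℕ, ∃ n : ℕ, X ≠ Y → ¬ (n ∈ X ↔ n ∈ Y) := by
    intro X Y
    by_cases h : X = Y
    · exact ⟨0, fun h' => (h' h).elim⟩
    · by_contra hcon
      push Not at hcon
      apply h
      ext n
      exact (hcon n).2
  choose w hw using h1
  refine ⟨(hT.toFinset ×ˢ hT.toFinset).image (fun p => w p.1 p.2), ?_⟩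
  intro X hX Y hY h
  by_contra hne
  apply hw X Y hne
  have hmem : w X Y ∈ (hT.toFinset ×ˢ hT.toFinset).image (fun p => w p.1 p.2) := by
    rw [Finset.mem_image]
    exact ⟨(X, Y), by simp [hX, hY], rfl⟩
  constructor
  · intro h2
    have h3 : w X Y ∈ Finset.filter (· ∈ X)
        ((hT.toFinset ×ˢ hT.toFinset).image (fun p => w p.1 p.2)) := by
      rw [Finset.mem_filter]; exact ⟨hmem, h2⟩
    rw [h] at h3
    exact (Finset.mem_filter.1 h3).2
  · intro h2
    have h3 : w X Y ∈ Finset.filter (· ∈ Y)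
        ((hT.toFinset ×ˢ hT.toFinset).image (fun p => w p.1 p.2)) := by
      rw [Finset.mem_filter]; exact ⟨hmem, h2⟩
    rw [← h] at h3
    exact (Finset.mem_filter.1 h3).2

open Classical in
/-- generating family of the filter attached to `C`. -/
noncomputable def gen (C : Set (Set ℕ)) : Set (Set S) :=
  Set.range fun X : Set ℕ => if X ∈ C then indep X else (indep X)ᶜ

open Classical in
theorem gen_neBot (C : Set (Set ℕ)) : (Filter.generate (gen C)).NeBot := by
  rw [Filter.generate_neBot_iff]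
  intro t ht htf
  have : ∀ a ∈ t, ∃ X : Set ℕ, (if X ∈ C then indep X else (indep X)ᶜ) = a := by
    intro a ha
    exact ht ha
  choose! g hg using this
  obtain ⟨F, hF⟩ := exists_separating (g '' t) (htf.image g)
  refine ⟨(F, ((htf.image g).toFinset.filter (· ∈ C)).image (fun X => F.filter (· ∈ X))), ?_⟩
  rw [Set.mem_sInter]
  intro a ha
  rw [← hg a ha]
  split_ifs with hC
  · show _ ∈ _
    simp only [indep, Set.mem_ofPred_eq]
    rw [Finset.mem_image]
    refine ⟨g a, ?_, rfl⟩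
    rw [Finset.mem_filter]
    exact ⟨by rw [Set.Finite.mem_toFinset]; exact ⟨a, ha, rfl⟩, hC⟩
  · simp only [indep, Set.mem_compl_iff, Set.mem_ofPred_eq]
    rw [Finset.mem_image]
    rintro ⟨X, hX, hXe⟩
    rw [Finset.mem_filter, Set.Finite.mem_toFinset] at hX
    have := hF X hX.1 (g a) ⟨a, ha, rfl⟩ hXe
    exact hC (this ▸ hX.2)

/-- The ultrafilter attached to `C`. -/
noncomputable def uf (C : Set (Set ℕ)) : Ultrafilter S :=
  haveI := gen_neBot C
  Ultrafilter.of (Filter.generate (gen C))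

open Classical in
theorem mem_uf (C : Set (Set ℕ)) (X : Set ℕ) : indep X ∈ uf C ↔ X ∈ C := by
  have := gen_neBot C
  have h1 : (if X ∈ C then indep X else (indep X)ᶜ) ∈ uf C := by
    have : (if X ∈ C then indep X else (indep X)ᶜ) ∈ Filter.generate (gen C) :=
      Filter.mem_generate_of_mem ⟨X, rfl⟩
    exact Ultrafilter.of_le _ this
  split_ifs at h1 with h
  · exact ⟨fun _ => h, fun _ => h1⟩
  · rw [Ultrafilter.compl_mem_iff_notMem] at h1
    exact ⟨fun h2 => (h1 h2).elim, fun h2 => (h h2).elim⟩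

theorem uf_injective : Function.Injective uf := by
  intro C D h
  ext X
  rw [← mem_uf C X, ← mem_uf D X, h]

theorem exists_inj_ultrafilter : ∃ f : Set (Set ℕ) → Ultrafilter ℕ, Function.Injective f := by
  obtain ⟨e⟩ : Nonempty (S ↪ ℕ) := by
    have : Countable S := inferInstance
    exact (nonempty_embedding_nat S)
  refine ⟨fun C => (uf C).map e, ?_⟩
  intro C D h
  apply uf_injective
  ext A
  have h1 : e '' A ∈ (uf C).map e ↔ e '' A ∈ (uf D).map e := by
    simp only at h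
    rw [h]
  rw [Ultrafilter.mem_map, Ultrafilter.mem_map, Set.preimage_image_eq _ e.injective] at h1
  exact h1

/-! ## Infinite closed subsets of `Ultrafilter ℕ` are large -/

theorem exists_seq (F : Set (Ultrafilter ℕ)) (hF : F.Infinite) :
    ∃ (x : ℕ → Ultrafilter ℕ) (A : ℕ → Set ℕ), (∀ n, x n ∈ F) ∧ (∀ n, A n ∈ x n) ∧
      ∀ m n, m ≠ n → Disjoint (A m) (A n) := by
  have : Infinite F := hF.to_subtype
  obtain ⟨f, hf⟩ := exists_topology_isEmbedding_nat F
  -- separate the points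
  have h1 : ∀ n : ℕ, ∃ B : Set ℕ, B ∈ (f n : Ultrafilter ℕ) ∧
      ∀ m, m ≠ n → B ∉ (f m : Ultrafilter ℕ) := by
    intro n
    have hopen : IsOpen ({n} : Set ℕ) := isOpen_discrete _
    rw [hf.isOpen_iff] at hopen
    obtain ⟨V, hV, hVn⟩ := hopen
    rw [isOpen_induced_iff] at hV
    obtain ⟨W, hW, rfl⟩ := hV
    have hnW : (f n : Ultrafilter ℕ) ∈ W := by
      have : n ∈ f ⁻¹' (Subtype.val ⁻¹' W) := by rw [hVn]; rfl
      exact this
    obtain ⟨T, hT, hnT, hTW⟩ := ultrafilterBasis_is_basis.exists_subset_of_mem_open hnW hW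
    obtain ⟨B, rfl⟩ := hT
    refine ⟨B, hnT, ?_⟩
    intro m hm hB
    have : m ∈ f ⁻¹' (Subtype.val ⁻¹' W) := hTW hB
    rw [hVn] at this
    exact hm this
  choose B hB hB' using h1
  refine ⟨fun n => f n, disjointed B, fun n => (f n).2, ?_, ?_⟩
  · intro n
    show disjointed B n ∈ (f n : Ultrafilter ℕ)
    rw [disjointed_eq_inter_compl]
    rw [← Ultrafilter.mem_coe]
    rw [Filter.inter_mem_iff]
    refine ⟨hB n, ?_⟩
    refine (Filter.biInter_mem (Set.finite_Iio n)).2 ?_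
    intro k hk
    rw [Ultrafilter.mem_coe, Ultrafilter.compl_mem_iff_notMem]
    exact hB' k n (ne_of_gt hk)
  · intro m n hmn
    exact disjoint_disjointed B hmn

theorem exists_inj_closed (F : Set (Ultrafilter ℕ)) (hF : F.Infinite) (hc : IsClosed F) :
    ∃ g : Ultrafilter ℕ → Ultrafilter ℕ, Function.Injective g ∧ ∀ p, g p ∈ F := by
  obtain ⟨x, A, hx, hA, hd⟩ := exists_seq F hF
  refine ⟨fun p => p.bind x, ?_, ?_⟩
  · intro p q hpq
    ext P
    have key : ∀ r : Ultrafilter ℕ, (⋃ n ∈ P, A n) ∈ r.bind x ↔ P ∈ r := by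
      intro r
      have h1 : (⋃ n ∈ P, A n) ∈ r.bind x ↔ {n | (⋃ n ∈ P, A n) ∈ x n} ∈ r := Iff.rfl
      rw [h1]
      have h2 : {n | (⋃ n ∈ P, A n) ∈ x n} = P := by
        ext n
        constructor
        · intro hn
          by_contra hnP
          have hn' : (⋃ n ∈ P, A n) ∈ x n := hn
          have h3 : (⋃ n ∈ P, A n) ∩ A n ∈ x n := by
            rw [← Ultrafilter.mem_coe]
            exact Filter.inter_mem hn' (hA n)
          obtain ⟨z, hz1, hz2⟩ := (x n).nonempty_of_mem h3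
          rw [Set.mem_iUnion₂] at hz1
          obtain ⟨m, hm, hzm⟩ := hz1
          have hmn : m ≠ n := fun h => hnP (h ▸ hm)
          exact Set.disjoint_left.1 (hd m n hmn) hzm hz2
        · intro hn
          show (⋃ n ∈ P, A n) ∈ x n
          exact Filter.mem_of_superset (hA n) (Set.subset_biUnion_of_mem (u := A) hn)
      rw [h2]
    have h3 : p.bind x = q.bind x := hpq
    rw [← key p, ← key q, h3]
  · intro p
    show p.bind x ∈ F
    rw [← hc.closure_eq, ultrafilterBasis_is_basis.mem_closure_iff]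
    rintro _ ⟨B, rfl⟩ hB
    have hB' : {n | B ∈ x n} ∈ p := hB
    obtain ⟨n, hn⟩ := p.nonempty_of_mem hB'
    exact ⟨x n, hn, hx n⟩

/-! ## A Bernstein type colouring -/

open Cardinal in
theorem exists_injective_choice {ι Y : Type u} (F : ι → Set Y) (h : ∀ i, #ι ≤ #(F i)) :
    ∃ g : ι → Y, Function.Injective g ∧ ∀ i, g i ∈ F i := by
  classical
  obtain ⟨lo, wf, hr⟩ := Cardinal.exists_ord_eq_type_lt ι
  have hlt : ∀ i : ι, #(Set.Iio i) < #ι := fun i => Cardinal.mk_Iio_lt i hr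
  have hex : ∀ (i : ι) (f : ∀ j, j < i → Y), ∃ y ∈ F i, ∀ j hj, f j hj ≠ y := by
    intro i f
    by_contra hcon
    push Not at hcon
    have hsub : F i ⊆ Set.range (fun j : Set.Iio i => f j.1 j.2) := by
      intro y hy
      obtain ⟨j, hj, hjy⟩ := hcon y hy
      exact ⟨⟨j, hj⟩, hjy⟩
    have : #(F i) ≤ #(Set.Iio i) := (Cardinal.mk_le_mk_of_subset hsub).trans Cardinal.mk_range_le
    exact absurd (lt_of_le_of_lt this (hlt i)) (not_lt.2 (h i))
  let g : ι → Y := wf.wf.fix (fun i f => (hex i f).choose)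
  have hg : ∀ i, g i = (hex i (fun j _ => g j)).choose := by
    intro i
    exact wf.wf.fix_eq _ i
  have hne : ∀ i j, j < i → g j ≠ g i := by
    intro i j hj
    rw [hg i]
    exact (hex i (fun j _ => g j)).choose_spec.2 j hj
  refine ⟨g, ?_, ?_⟩
  · intro i j hij
    rcases lt_trichotomy i j with hl | he | hl
    · exact (hne j i hl hij).elim
    · exact he
    · exact (hne i j hl hij.symm).elim
  · intro i
    rw [hg i]
    exact (hex i (fun j _ => g j)).choose_spec.1

/-- The index set of the colouring argument. -/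
abbrev Idx : Type := {F : Set (Ultrafilter ℕ) // F.Infinite ∧ IsClosed F} × ℕ

open Cardinal in
theorem mk_closed_le : #{F : Set (Ultrafilter ℕ) // F.Infinite ∧ IsClosed F} ≤ #(Set (Set ℕ)) := by
  refine Cardinal.mk_le_of_injective (f := fun F => {A : Set ℕ | ∀ p ∈ F.1, A ∈ p}) ?_
  intro F G h
  have h' : {A : Set ℕ | ∀ p ∈ F.1, A ∈ p} = {A : Set ℕ | ∀ p ∈ G.1, A ∈ p} := h
  have key : ∀ F G : {F : Set (Ultrafilter ℕ) // F.Infinite ∧ IsClosed F},
      {A : Set ℕ | ∀ p ∈ F.1, A ∈ p} = {A : Set ℕ | ∀ p ∈ G.1, A ∈ p} → F.1 ⊆ G.1 := by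
    intro F G h p hp
    rw [← G.2.2.closure_eq, ultrafilterBasis_is_basis.mem_closure_iff]
    rintro _ ⟨B, rfl⟩ hB
    by_contra hcon
    rw [Set.not_nonempty_iff_eq_empty] at hcon
    have h1 : Bᶜ ∈ {A : Set ℕ | ∀ p ∈ G.1, A ∈ p} := by
      intro q hq
      rw [Ultrafilter.compl_mem_iff_notMem]
      intro hBq
      have : q ∈ ({u | B ∈ u} ∩ G.1 : Set (Ultrafilter ℕ)) := ⟨hBq, hq⟩
      rw [hcon] at this
      exact this
    rw [← h] at h1
    have h2 := h1 p hp
    rw [Ultrafilter.compl_mem_iff_notMem] at h2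
    exact h2 hB
  exact Subtype.ext (Set.Subset.antisymm (key F G h') (key G F h'.symm))

open Cardinal in
theorem mk_idx_le (F : Set (Ultrafilter ℕ)) (hF : F.Infinite) (hc : IsClosed F) :
    #Idx ≤ #F := by
  obtain ⟨g, hg, hgF⟩ := exists_inj_closed F hF hc
  obtain ⟨f, hf⟩ := exists_inj_ultrafilter
  have h1 : #(Set (Set ℕ)) ≤ #F := by
    refine Cardinal.mk_le_of_injective (f := fun C => (⟨g (f C), hgF _⟩ : F)) ?_
    intro C D h
    exact hf (hg (congrArg Subtype.val h))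
  have h2 : #Idx ≤ #(Set (Set ℕ)) := by
    have hinf : ℵ₀ ≤ #(Set (Set ℕ)) := by
      rw [Cardinal.aleph0_le_mk_iff]
      infer_instance
    calc #Idx = #{F : Set (Ultrafilter ℕ) // F.Infinite ∧ IsClosed F} * ℵ₀ := by
          rw [Cardinal.mk_prod]; simp
      _ ≤ #(Set (Set ℕ)) * #(Set (Set ℕ)) := mul_le_mul' mk_closed_le hinf
      _ = #(Set (Set ℕ)) := Cardinal.mul_eq_self hinf
  exact h2.trans h1

/-- There is a colouring of `Ultrafilter ℕ` by natural numbers such that every infinite closed set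
gets all the colours. -/
theorem exists_colouring : ∃ c : Ultrafilter ℕ → ℕ,
    ∀ F : Set (Ultrafilter ℕ), F.Infinite → IsClosed F → ∀ n, ∃ y ∈ F, c y = n := by
  classical
  obtain ⟨g, hg, hgF⟩ := exists_injective_choice (ι := Idx) (Y := Ultrafilter ℕ)
    (fun i => i.1.1) (fun i => mk_idx_le i.1.1 i.1.2.1 i.1.2.2)
  refine ⟨fun y => if h : ∃ i : Idx, g i = y then h.choose.2 else 0, ?_⟩
  intro F hF hc n
  refine ⟨g (⟨F, hF, hc⟩, n), hgF (⟨F, hF, hc⟩, n), ?_⟩
  have h : ∃ i : Idx, g i = g (⟨F, hF, hc⟩, n) := ⟨_, rfl⟩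
  have h2 := hg h.choose_spec
  simp only [dif_pos h]
  rw [h2]

/-! ## The space -/

section Space

/-- The ideal of sets that meet each colour class in a finite set. -/
def Small {Y : Type u} (c : Y → ℕ) (I : Set Y) : Prop := ∀ n, (I ∩ c ⁻¹' {n}).Finite

theorem Small.union {Y : Type u} (c : Y → ℕ) {I J : Set Y} (hI : Small c I) (hJ : Small c J) : Small c (I ∪ J) := by
  intro n
  rw [Set.union_inter_distrib_right]
  exact (hI n).union (hJ n)

theorem Small.subset {Y : Type u} (c : Y → ℕ) {I J : Set Y} (hI : Small c I) (hJ : J ⊆ I) : Small c J := fun n =>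
  (hI n).subset (Set.inter_subset_inter_left _ hJ)

variable {Y : Type u} [TopologicalSpace Y] (c : Y → ℕ)

/-- The topology obtained from the given one by declaring all small sets closed. -/
@[reducible] def newTop : TopologicalSpace Y where
  IsOpen U := ∀ y ∈ U, ∃ V, IsOpen V ∧ y ∈ V ∧ ∃ I, Small c I ∧ V \ I ⊆ U
  isOpen_univ := fun y _ => ⟨Set.univ, isOpen_univ, Set.mem_univ y, ∅,
    fun n => by simp, Set.subset_univ _⟩
  isOpen_inter := by
    intro U W hU hW y hy
    obtain ⟨V, hV, hyV, I, hI, hVI⟩ := hU y hy.1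
    obtain ⟨V', hV', hyV', I', hI', hVI'⟩ := hW y hy.2
    refine ⟨V ∩ V', hV.inter hV', ⟨hyV, hyV'⟩, I ∪ I', hI.union c hI', ?_⟩
    rintro z ⟨⟨hz1, hz2⟩, hz3⟩
    exact ⟨hVI ⟨hz1, fun h => hz3 (Or.inl h)⟩, hVI' ⟨hz2, fun h => hz3 (Or.inr h)⟩⟩
  isOpen_sUnion := by
    intro s hs y hy
    obtain ⟨U, hU, hyU⟩ := hy
    obtain ⟨V, hV, hyV, I, hI, hVI⟩ := hs U hU y hyU
    exact ⟨V, hV, hyV, I, hI, hVI.trans (Set.subset_sUnion_of_mem hU)⟩

/-- The set `Y` with the new topology. -/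
def NewSpace {Y : Type u} [TopologicalSpace Y] (_c : Y → ℕ) : Type u := Y

instance instTopNewSpace : TopologicalSpace (NewSpace c) := newTop (Y := Y) c

theorem isOpen_newSpace_iff (U : Set (NewSpace c)) : IsOpen U ↔
    ∀ y ∈ U, ∃ V : Set Y, IsOpen V ∧ y ∈ V ∧ ∃ I : Set Y, Small c I ∧ V \ I ⊆ U := Iff.rfl

/-- The identity map. -/
def toY : NewSpace c → Y := fun x => x

theorem toY_injective : Function.Injective (toY c) := fun _ _ h => h

theorem continuous_toY : Continuous (toY c) := by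
  constructor
  intro U hU
  rw [isOpen_newSpace_iff]
  intro y hy
  exact ⟨U, hU, hy, ∅, fun n => by simp, by intro z hz; exact hz.1⟩

theorem isOpen_compl_small {I : Set (NewSpace c)} (hI : Small (Y := Y) c I) : IsOpen Iᶜ := by
  rw [isOpen_newSpace_iff]
  intro y _
  exact ⟨Set.univ, isOpen_univ, Set.mem_univ y, I, hI, by
    intro z hz; exact hz.2⟩

theorem t2_newSpace [T2Space Y] : T2Space (NewSpace c) :=
  T2Space.of_injective_continuous (toY_injective c) (continuous_toY c)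

theorem finite_of_isCompact [T2Space Y]
    (hc : ∀ F : Set Y, F.Infinite → IsClosed F → ∀ n, ∃ y ∈ F, c y = n)
    (K : Set (NewSpace c)) (hK : IsCompact K) : K.Finite := by
  by_contra hinf
  have hK' : IsClosed (toY c '' K) := (hK.image (continuous_toY c)).isClosed
  have hinf' : (toY c '' K).Infinite := by
    intro hfin
    exact hinf (hfin.of_finite_image ((toY_injective c).injOn))
  choose y hyK hyc using hc _ hinf' hK'
  have hyK' : ∀ n, (y n : NewSpace c) ∈ K := by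
    intro n
    obtain ⟨z, hz, hzy⟩ := hyK n
    have : z = y n := hzy
    rw [← this]; exact hz
  have hyinj : Function.Injective y := by
    intro m n h
    rw [← hyc m, ← hyc n, h]
  let I : Set (NewSpace c) := Set.range y
  have hI : ∀ n : ℕ, Small (Y := Y) c (I \ {y n}) := by
    intro n m
    refine (Set.finite_singleton (y m)).subset ?_
    rintro z ⟨⟨⟨k, rfl⟩, _⟩, hzm⟩
    have : c (y k) = m := hzm
    rw [hyc k] at this
    rw [this]; rfl
  obtain ⟨t, ht⟩ := hK.elim_finite_subcover (fun n : ℕ => (I \ {y n})ᶜ)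
    (fun n => isOpen_compl_small c (hI n)) (by
      intro z _
      rw [Set.mem_iUnion]
      by_cases hz : z ∈ I
      · obtain ⟨n, rfl⟩ := hz
        exact ⟨n, fun h => h.2 rfl⟩
      · exact ⟨0, fun h => hz h.1⟩)
  obtain ⟨m, hm⟩ := Infinite.exists_notMem_finset t
  have h1 := Set.mem_iUnion₂.1 (ht (hyK' m))
  obtain ⟨n, hn, h2⟩ := h1
  apply h2
  refine ⟨⟨m, rfl⟩, ?_⟩
  intro h3
  have : y m = y n := h3
  exact hm (hyinj this ▸ hn)

theorem ultrafilter_converges [CompactSpace Y] [T2Space Y] (N : ℕ)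
    (𝓥 : Ultrafilter (NewSpace c)) (hN : {x : NewSpace c | c x ≤ N} ∈ 𝓥) :
    ∃ y : NewSpace c, ∀ U : Set (NewSpace c), IsOpen U → y ∈ U → U ∈ 𝓥 := by
  -- the limit in `Y`
  let 𝓦 : Ultrafilter Y := 𝓥.map (toY c)
  have hlim : ↑𝓦 ≤ 𝓝 𝓦.lim := 𝓦.le_nhds_lim
  have hW : ∀ A : Set Y, A ∈ 𝓦 ↔ (A : Set (NewSpace c)) ∈ 𝓥 := fun A => Iff.rfl
  refine ⟨𝓦.lim, ?_⟩
  intro U hU hyU
  rw [isOpen_newSpace_iff] at hU
  obtain ⟨V, hV, hyV, I, hI, hVI⟩ := hU _ hyU
  have hV' : V ∈ 𝓦 := hlim (hV.mem_nhds hyV)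
  by_cases hI' : I ∈ 𝓦
  · -- then the ultrafilter is principal
    have h1 : I ∩ {x | c x ≤ N} ∈ 𝓦 := Filter.inter_mem hI' hN
    have h2 : (I ∩ {x | c x ≤ N}).Finite := by
      have : I ∩ {x | c x ≤ N} ⊆ ⋃ n ∈ Set.Iic N, (I ∩ c ⁻¹' {n}) := by
        rintro z ⟨hz1, hz2⟩
        rw [Set.mem_iUnion₂]
        exact ⟨c z, hz2, hz1, rfl⟩
      exact ((Set.finite_Iic N).biUnion (fun n _ => hI n)).subset this
    obtain ⟨z, hz, hz2⟩ := Ultrafilter.eq_pure_of_finite_mem h2 h1
    have hzlim : z = 𝓦.lim := by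
      have h3 : (pure z : Filter Y) ≤ 𝓝 𝓦.lim := by
        rw [← Ultrafilter.coe_pure, ← hz2]
        exact hlim
      exact eq_of_nhds_neBot (((pure_neBot (a := z)).mono (le_inf (pure_le_nhds z) h3)))
    have h4 : ∀ A : Set Y, 𝓦.lim ∈ A → A ∈ 𝓦 := by
      intro A hA
      rw [hz2, Ultrafilter.mem_pure, hzlim]
      exact hA
    exact (hW U).1 (h4 U hyU)
  · have h1 : V \ I ∈ 𝓦 := (Ultrafilter.sdiff_mem_iff 𝓦).2 ⟨hV', hI'⟩
    have h2 : (V \ I : Set Y) ∈ 𝓦 := h1
    exact Filter.mem_of_superset h2 hVI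

theorem exists_finite_subcover [CompactSpace Y] [T2Space Y] (N : ℕ)
    (𝒰 : Set (Set (NewSpace c))) (h𝒰 : IsKCover (NewSpace c) 𝒰) :
    ∃ 𝓕 : Set (Set (NewSpace c)), 𝓕 ⊆ 𝒰 ∧ 𝓕.Finite ∧
      ∀ f : Fin (N + 1) → NewSpace c, (∀ i, c (f i) ≤ N) → ∃ U ∈ 𝓕, ∀ i, f i ∈ U := by
  by_contra hcon
  push Not at hcon
  let P : Set (Fin (N + 1) → NewSpace c) := {f | ∀ i, c (f i) ≤ N}
  let B : Set (NewSpace c) → Set (Fin (N + 1) → NewSpace c) := fun U => {f | ∃ i, f i ∉ U}
  let G : Filter (Fin (N + 1) → NewSpace c) := Filter.generate (insert P (B '' 𝒰))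
  have hG : G.NeBot := by
    rw [Filter.generate_neBot_iff]
    intro t ht htf
    have h1 : ∃ 𝓕 ⊆ 𝒰, 𝓕.Finite ∧ t ⊆ insert P (B '' 𝓕) := by
      have hsub : t \ {P} ⊆ B '' 𝒰 := by
        intro a ha
        rcases ht ha.1 with h | h
        · exact (ha.2 h).elim
        · exact h
      obtain ⟨𝓕, h𝓕, hfin, h𝓕t⟩ := (Set.exists_subset_image_finite_and
        (p := fun s => s = t \ {P})).1 ⟨t \ {P}, hsub, htf.subset Set.sdiff_subset, rfl⟩
      refine ⟨𝓕, h𝓕, hfin, ?_⟩
      rw [h𝓕t]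
      intro a ha
      by_cases h : a = P
      · exact Or.inl h
      · exact Or.inr ⟨ha, h⟩
    obtain ⟨𝓕, h𝓕, hfin, ht'⟩ := h1
    obtain ⟨f, hf, hf'⟩ := hcon 𝓕 h𝓕 hfin
    refine ⟨f, ?_⟩
    rw [Set.mem_sInter]
    intro a ha
    rcases ht' ha with h | ⟨U, hU, rfl⟩
    · rw [h]; exact hf
    · exact hf' U hU
  let 𝓤 : Ultrafilter (Fin (N + 1) → NewSpace c) := Ultrafilter.of G
  have hP : P ∈ 𝓤 := Ultrafilter.of_le G (Filter.mem_generate_of_mem (Set.mem_insert _ _))
  have hB : ∀ U ∈ 𝒰, B U ∈ 𝓤 := fun U hU => Ultrafilter.of_le G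
    (Filter.mem_generate_of_mem (Set.mem_insert_of_mem _ ⟨U, hU, rfl⟩))
  have h1 : ∀ i : Fin (N + 1), ∃ y : NewSpace c, ∀ U : Set (NewSpace c), IsOpen U → y ∈ U →
      U ∈ 𝓤.map (fun f => f i) := by
    intro i
    apply ultrafilter_converges c N
    rw [Ultrafilter.mem_map]
    exact Filter.mem_of_superset hP (fun f hf => hf i)
  choose y hy using h1
  obtain ⟨U, hU, hyU⟩ := h𝒰.2 (Set.range y) (Set.finite_range y).isCompact
  have h2 : ∀ i : Fin (N + 1), {f : Fin (N + 1) → NewSpace c | f i ∈ U} ∈ 𝓤 := by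
    intro i
    exact Ultrafilter.mem_map.1 (hy i U (h𝒰.1 U hU) (hyU ⟨i, rfl⟩))
  have h3 : (⋂ i, {f : Fin (N + 1) → NewSpace c | f i ∈ U}) ∈ 𝓤 := by
    rw [← Ultrafilter.mem_coe, Filter.iInter_mem]
    exact h2
  have h4 : (⋂ i, {f : Fin (N + 1) → NewSpace c | f i ∈ U}) ∩ B U ∈ 𝓤 :=
    Filter.inter_mem h3 (hB U hU)
  obtain ⟨f, hf1, i, hf2⟩ := 𝓤.nonempty_of_mem h4
  exact hf2 (Set.mem_iInter.1 hf1 i)

theorem markovKMenger_newSpace [CompactSpace Y] [T2Space Y] [Nonempty Y]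
    (hc : ∀ F : Set Y, F.Infinite → IsClosed F → ∀ n, ∃ y ∈ F, c y = n) :
    MarkovKMenger (NewSpace c) := by
  classical
  refine ⟨fun 𝒰 n => if h : IsKCover (NewSpace c) 𝒰 then
    (exists_finite_subcover c n 𝒰 h).choose else ∅, ?_, ?_⟩
  · intro 𝒰 n h
    simp only [dif_pos h]
    exact ⟨(exists_finite_subcover c n 𝒰 h).choose_spec.1,
      (exists_finite_subcover c n 𝒰 h).choose_spec.2.1⟩
  · intro 𝒰 h
    constructor
    · intro U hU
      rw [Set.mem_iUnion] at hU
      obtain ⟨n, hn⟩ := hU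
      simp only [dif_pos (h n)] at hn
      exact (h n).1 U ((exists_finite_subcover c n (𝒰 n) (h n)).choose_spec.1 hn)
    · intro K hK
      have hKf : K.Finite := finite_of_isCompact c hc K hK
      -- parametrize a nonempty finite superset
      obtain ⟨y0⟩ := ‹Nonempty Y›
      have hLf : (insert (y0 : NewSpace c) K).Finite := hKf.insert _
      obtain ⟨m, g, hg⟩ : ∃ (m : ℕ) (g : Fin (m + 1) → NewSpace c),
          K ⊆ Set.range g := by
        obtain ⟨m, g, _, hg⟩ := hLf.fin_param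
        cases m with
        | zero =>
          exfalso
          have : (y0 : NewSpace c) ∈ Set.range g := by rw [hg]; exact Set.mem_insert _ _
          obtain ⟨i, _⟩ := this
          exact i.elim0
        | succ m => exact ⟨m, g, by rw [hg]; exact Set.subset_insert _ _⟩
      obtain ⟨N, hN⟩ : ∃ N : ℕ, ∀ i, c (g i) ≤ N := by
        obtain ⟨N, hN⟩ := (Set.finite_range (fun i => c (g i))).bddAbove
        exact ⟨N, fun i => hN ⟨i, rfl⟩⟩
      let M := max m N
      have hmM : m ≤ M := le_max_left _ _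
      have hspec := (exists_finite_subcover c M (𝒰 M) (h M)).choose_spec.2.2
        (fun i => g ⟨min i m, by omega⟩) (fun i => (hN _).trans (le_max_right _ _))
      obtain ⟨U, hU, hUi⟩ := hspec
      refine ⟨U, ?_, ?_⟩
      · rw [Set.mem_iUnion]
        refine ⟨M, ?_⟩
        simp only [dif_pos (h M)]
        exact hU
      · intro z hz
        obtain ⟨j, rfl⟩ := hg hz
        have := hUi ⟨j, by omega⟩
        have h5 : (⟨min (j : ℕ) m, by omega⟩ : Fin (m + 1)) = j := by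
          ext
          simp
          omega
        simp only [h5] at this
        exact this

theorem not_markovKRothberger_newSpace [T2Space Y] (hunc : ¬ Countable Y)
    (hc : ∀ F : Set Y, F.Infinite → IsClosed F → ∀ n, ∃ y ∈ F, c y = n) :
    ¬ MarkovKRothberger (NewSpace c) := by
  have := t2_newSpace c
  rintro ⟨σ, hσ, hwin⟩
  have h1 : ∀ n, (⋂ 𝒰 ∈ {𝒰 : Set (Set (NewSpace c)) | IsKCover (NewSpace c) 𝒰}, σ 𝒰 n).Finite := by
    intro n
    by_contra hinf
    set A := (⋂ 𝒰 ∈ {𝒰 : Set (Set (NewSpace c)) | IsKCover (NewSpace c) 𝒰}, σ 𝒰 n) with hA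
    have hk : IsKCover (NewSpace c) ((fun x => ({x}ᶜ : Set (NewSpace c))) '' A) := by
      constructor
      · rintro _ ⟨x, _, rfl⟩
        exact isOpen_compl_singleton
      · intro K hK
        have hKf := finite_of_isCompact c hc K hK
        have : (A \ K).Nonempty := by
          by_contra hcon
          rw [Set.not_nonempty_iff_eq_empty, Set.sdiff_eq_empty] at hcon
          exact hinf (hKf.subset hcon)
        obtain ⟨x, hxA, hxK⟩ := this
        refine ⟨{x}ᶜ, ⟨x, hxA, rfl⟩, ?_⟩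
        intro z hz hzx
        exact hxK (hzx ▸ hz)
    obtain ⟨x, hxA, hx⟩ := hσ _ n hk
    have h2 : x ∈ σ ((fun x => ({x}ᶜ : Set (NewSpace c))) '' A) n := by
      have := hxA
      rw [hA, Set.mem_iInter₂] at this
      exact this _ hk
    rw [← hx] at h2
    exact h2 rfl
  have h2 : (⋃ n, ⋂ 𝒰 ∈ {𝒰 : Set (Set (NewSpace c)) | IsKCover (NewSpace c) 𝒰},
      σ 𝒰 n).Countable := Set.countable_iUnion fun n => (h1 n).countable
  have h3 : ∃ x : NewSpace c, x ∉ (⋃ n, ⋂ 𝒰 ∈ {𝒰 : Set (Set (NewSpace c)) |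
      IsKCover (NewSpace c) 𝒰}, σ 𝒰 n) := by
    by_contra hcon
    push Not at hcon
    apply hunc
    have : (Set.univ : Set (NewSpace c)).Countable := h2.mono (fun x _ => hcon x)
    exact Set.countable_univ_iff.1 this
  obtain ⟨x, hx⟩ := h3
  rw [Set.mem_iUnion] at hx
  push Not at hx
  have h4 : ∀ n, ∃ 𝒰 : Set (Set (NewSpace c)), IsKCover (NewSpace c) 𝒰 ∧ x ∉ σ 𝒰 n := by
    intro n
    have := hx n
    rw [Set.mem_iInter₂] at this
    push Not at this
    obtain ⟨𝒰, h1, h2⟩ := this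
    exact ⟨𝒰, h1, h2⟩
  choose 𝒰 h𝒰 hx𝒰 using h4
  obtain ⟨U, ⟨n, rfl⟩, hU⟩ := (hwin 𝒰 h𝒰).2 {x} isCompact_singleton
  exact hx𝒰 n (hU rfl)

end Space

/-- **Main result.** There is a Hausdorff space `X`, even one that admits a continuous bijection onto
a compact Hausdorff space, such that `X` is Markov `k`-Menger but not Markov `k`-Rothberger. -/
theorem result : ∃ (X : Type) (_ : TopologicalSpace X), T2Space X ∧
    (∃ (Z : Type) (_ : TopologicalSpace Z) (f : X → Z),
      CompactSpace Z ∧ T2Space Z ∧ Continuous f ∧ Function.Bijective f) ∧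
    MarkovKMenger X ∧ ¬ MarkovKRothberger X := by
  obtain ⟨c, hc⟩ := exists_colouring
  refine ⟨NewSpace c, inferInstance, t2_newSpace c,
    ⟨Ultrafilter ℕ, inferInstance, toY c, inferInstance, inferInstance, continuous_toY c,
      toY_injective c, fun y => ⟨y, rfl⟩⟩,
    markovKMenger_newSpace c hc, not_markovKRothberger_newSpace c ?_ hc⟩
  intro hcount
  obtain ⟨f, hf⟩ := exists_inj_ultrafilter
  have h1 : Countable (Set (Set ℕ)) := by
    have : Countable (Ultrafilter ℕ) := hcount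
    exact hf.countable
  have h2 : Countable (Set ℕ) := (Set.singleton_injective (α := Set ℕ)).countable
  obtain ⟨e⟩ := nonempty_embedding_nat (Set ℕ)
  exact Function.cantor_injective e e.injective

end Pool.Agent.Results.MP_41ff45_gt.HausdorffCounterexample
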